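import Mathlib

/-!
# The zigzag chain with multiplicity `r`

Generalisation of the chain of helper219 (distinct subset sums, `r = 1`) to relations with
coefficients of absolute value at most `r`.
`zig p n` is the distance of `n` to the nearest multiple of `2 p`.  The chain of averages
`w 0 = 0` (the sink), `w n = (r w (n-1) + w (prev n)) / (r + 1)`, where `prev n` is the last index
before `n` with the same value of `zig`, and the hub `1` if there is none, is stored in the scaled
integer states `X r p n l` (`(r + 1) ^ n` times the value of the last element with label `l`).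
-/

set_option autoImplicit false

namespace Pool.Agent.H514R2.DS

open Finset

/-- Zigzag: the distance of `n` to the nearest multiple of `2 p`. -/
def zig (p n : ℕ) : ℕ := min (n % (2 * p)) (2 * p - n % (2 * p))

lemma zig_le (p n : ℕ) : zig p n ≤ p := by
  unfold zig
  omega

lemma zig_zero (p : ℕ) : zig p 0 = 0 := by
  unfold zig
  simp

lemma zig_mul (p k : ℕ) : zig p (2 * p * k) = 0 := by
  unfold zig
  simp

lemma zig_one (p : ℕ) (hp : 1 ≤ p) : zig p 1 = 1 := by
  unfold zig
  have : 1 % (2 * p) = 1 := Nat.mod_eq_of_lt (by omega)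
  rw [this]
  omega

lemma zig_step (p n : ℕ) (hp : 1 ≤ p) :
    zig p (n + 1) = zig p n + 1 ∨ zig p n = zig p (n + 1) + 1 := by
  unfold zig
  have h1 : n % (2 * p) < 2 * p := Nat.mod_lt _ (by omega)
  have h2 : 2 * p * (n / (2 * p)) + n % (2 * p) = n := Nat.div_add_mod n (2 * p)
  rcases Nat.lt_or_ge (n % (2 * p) + 1) (2 * p) with h | h
  · have h3 : (n + 1) % (2 * p) = n % (2 * p) + 1 := by
      conv_lhs => rw [← h2, add_assoc, Nat.mul_add_mod]
      exact Nat.mod_eq_of_lt h
    rw [h3]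
    omega
  · have h4 : n % (2 * p) + 1 = 2 * p := by omega
    have h3 : (n + 1) % (2 * p) = 0 := by
      conv_lhs => rw [← h2, add_assoc, Nat.mul_add_mod, h4]
      simp
    rw [h3]
    omega

lemma zig_ne (p n : ℕ) (hp : 1 ≤ p) : zig p (n + 1) ≠ zig p n := by
  have := zig_step p n hp
  omega

/-- Scaled states of the chain. -/
def X (r p : ℕ) : ℕ → ℕ → ℤ
  | 0 => fun l => if l = 0 then 0 else 1
  | (n + 1) => fun l =>
      if l = zig p (n + 1) then (r : ℤ) * X r p n (zig p n) + X r p n (zig p (n + 1))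
      else ((r : ℤ) + 1) * X r p n l

lemma X_self (r p n : ℕ) :
    X r p (n + 1) (zig p (n + 1)) =
      (r : ℤ) * X r p n (zig p n) + X r p n (zig p (n + 1)) := by
  simp [X]

lemma X_other (r p n l : ℕ) (hl : l ≠ zig p (n + 1)) :
    X r p (n + 1) l = ((r : ℤ) + 1) * X r p n l := by
  simp [X, hl]

lemma X_coprime (r p : ℕ) (hp : 1 ≤ p) (n : ℕ) :
    IsCoprime ((r : ℤ) + 1) (X r p (n + 1) (zig p (n + 1))) := by
  induction n with
  | zero =>
    rw [X_self, zig_zero, zero_add, zig_one p hp]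
    simp only [X, if_true, mul_zero, zero_add, one_ne_zero, if_false]
    exact isCoprime_one_right
  | succ n ih =>
    rw [X_self]
    have h1 := zig_ne p (n + 1) hp
    rw [X_other r p n (zig p (n + 1 + 1)) h1]
    have h2 : (r : ℤ) * X r p (n + 1) (zig p (n + 1)) + ((r : ℤ) + 1) * X r p n (zig p (n + 1 + 1))
        = -X r p (n + 1) (zig p (n + 1)) +
          ((r : ℤ) + 1) * (X r p (n + 1) (zig p (n + 1)) + X r p n (zig p (n + 1 + 1))) := by
      ring
    rw [h2]
    exact IsCoprime.add_mul_left_right (IsCoprime.neg_right ih) _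

/-- The value equation at stage `n`. -/
def EE (r p : ℕ) (c : ℕ → ℤ) (cH : ℤ) (n : ℕ) (A : ℤ) (b : ℕ → ℤ) : Prop :=
  ∑ m ∈ range (n + 1), c m * (((r : ℤ) + 1) ^ (n - m) * X r p m (zig p m)) +
    cH * ((r : ℤ) + 1) ^ n +
    A * X r p n (zig p n) + ∑ l ∈ range (p + 1), b l * X r p n l = 0

/-- The counting equation at stage `n`. -/
def QQ (p : ℕ) (c : ℕ → ℤ) (cH : ℤ) (n : ℕ) (A : ℤ) (b : ℕ → ℤ) : Prop :=
  ∑ m ∈ range (n + 1), c m + cH + A + ∑ l ∈ range (p + 1), b l = 0

lemma sum_split (p z : ℕ) (hz : z ≤ p) (F : ℕ → ℤ) :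
    ∑ l ∈ range (p + 1), F l = F z + ∑ l ∈ (range (p + 1)).erase z, F l := by
  rw [Finset.add_sum_erase]
  simp
  omega

lemma sum_update (p z : ℕ) (hz : z ≤ p) (b : ℕ → ℤ) (f : ℤ) (G : ℕ → ℤ) :
    ∑ l ∈ range (p + 1), Function.update b z f l * G l =
      f * G z + ∑ l ∈ (range (p + 1)).erase z, b l * G l := by
  rw [sum_split p z hz, Function.update_self]
  congr 1
  refine Finset.sum_congr rfl ?_
  intro l hl
  rw [Function.update_of_ne (Finset.ne_of_mem_erase hl)]

/-- One firing step. -/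
lemma step_down (r p : ℕ) (hp : 1 ≤ p) (c : ℕ → ℤ) (cH : ℤ) (n : ℕ) (A : ℤ) (b : ℕ → ℤ)
    (hE : EE r p c cH (n + 1) A b) (hQ : QQ p c cH (n + 1) A b) :
    ∃ f : ℤ, ((r : ℤ) + 1) * f = c (n + 1) + A + b (zig p (n + 1)) ∧
      EE r p c cH n ((r : ℤ) * f) (Function.update b (zig p (n + 1)) f) ∧
      QQ p c cH n ((r : ℤ) * f) (Function.update b (zig p (n + 1)) f) := by
  set z := zig p (n + 1) with hz
  have hzp : z ≤ p := zig_le p (n + 1)
  have hv := X_coprime r p hp n
  rw [← hz] at hv
  have e1 : ∑ m ∈ range (n + 1 + 1), c m * (((r : ℤ) + 1) ^ (n + 1 - m) * X r p m (zig p m)) =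
      ((r : ℤ) + 1) * (∑ m ∈ range (n + 1), c m * (((r : ℤ) + 1) ^ (n - m) * X r p m (zig p m))) +
        c (n + 1) * X r p (n + 1) z := by
    rw [Finset.sum_range_succ, Finset.mul_sum]
    congr 1
    · refine Finset.sum_congr rfl ?_
      intro m hm
      rw [Finset.mem_range] at hm
      have : n + 1 - m = (n - m) + 1 := by omega
      rw [this, pow_succ]
      ring
    · simp [hz]
  have e2 : ∑ l ∈ range (p + 1), b l * X r p (n + 1) l = b z * X r p (n + 1) z +
      ((r : ℤ) + 1) * ∑ l ∈ (range (p + 1)).erase z, b l * X r p n l := by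
    rw [sum_split p z hzp, Finset.mul_sum]
    congr 1
    refine Finset.sum_congr rfl ?_
    intro l hl
    rw [X_other r p n l (Finset.ne_of_mem_erase hl)]
    ring
  unfold EE at hE
  rw [e1, e2] at hE
  have hdv : ((r : ℤ) + 1) ∣ (c (n + 1) + A + b z) * X r p (n + 1) z := by
    refine ⟨-(∑ m ∈ range (n + 1), c m * (((r : ℤ) + 1) ^ (n - m) * X r p m (zig p m)) +
      cH * ((r : ℤ) + 1) ^ n +
      ∑ l ∈ (range (p + 1)).erase z, b l * X r p n l), ?_⟩
    rw [← hz] at hE
    rw [pow_succ] at hE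
    linear_combination hE
  obtain ⟨f, hf⟩ := hv.dvd_of_dvd_mul_right hdv
  refine ⟨f, hf.symm, ?_, ?_⟩
  · unfold EE
    rw [sum_update p z hzp]
    have hs : X r p (n + 1) z = (r : ℤ) * X r p n (zig p n) + X r p n z := by
      rw [hz]; exact X_self r p n
    rw [← hz, pow_succ, hs] at hE
    have h2 : ((r : ℤ) + 1) ≠ 0 := by positivity
    apply mul_left_cancel₀ h2
    linear_combination hE - ((r : ℤ) * X r p n (zig p n) + X r p n z) * hf
  · unfold QQ at hQ ⊢
    have e3 := sum_update p z hzp b f (fun _ => 1)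
    have e4 := sum_split p z hzp b
    simp only [mul_one] at e3
    rw [e3]
    rw [Finset.sum_range_succ, e4] at hQ
    linear_combination hQ - hf

lemma avg_ge {r f g h s t a : ℤ} (hr : 0 ≤ r) (hf : (r + 1) * f = g + h + r * s + t)
    (hg : -r ≤ g) (hh : 0 ≤ h) (h1 : a ≤ s) (h2 : a ≤ t) : a ≤ f := by
  by_contra hcon
  push Not at hcon
  have h3 : (r + 1) * f ≤ (r + 1) * (a - 1) :=
    mul_le_mul_of_nonneg_left (by omega) (by omega)
  have h4 : r * a ≤ r * s := mul_le_mul_of_nonneg_left h1 hr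
  have h5 : (r + 1) * (a - 1) = r * a + a - r - 1 := by ring
  linarith

lemma avg_le {r f g s t a : ℤ} (hr : 0 ≤ r) (hf : (r + 1) * f = g + r * s + t)
    (hg : g ≤ r) (h1 : s ≤ a) (h2 : t ≤ a) : f ≤ a := by
  by_contra hcon
  push Not at hcon
  have h3 : (r + 1) * (a + 1) ≤ (r + 1) * f :=
    mul_le_mul_of_nonneg_left (by omega) (by omega)
  have h4 : r * s ≤ r * a := mul_le_mul_of_nonneg_left h1 hr
  have h5 : (r + 1) * (a + 1) = r * a + a + r + 1 := by ring
  linarith

/-- The monotone descent. -/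
lemma descent_pos (r p : ℕ) (hp : 1 ≤ p) (c g h : ℕ → ℤ) (cH : ℤ)
    (hc : ∀ m, c m = g m + h m)
    (hg : ∀ m, |g m| ≤ (r : ℤ)) (hh0 : ∀ m, 0 ≤ h m) (hhz : ∀ m, zig p m ≠ 0 → h m = 0) :
    ∀ (n : ℕ) (A : ℤ) (b : ℕ → ℤ), EE r p c cH n A b → QQ p c cH n A b →
      A = (r : ℤ) * b (zig p (n + 1)) →
      (∀ l, l < p → b (l + 1) ≤ b l) →
      ∃ b' : ℕ → ℤ, (∀ l, l < p → b' (l + 1) ≤ b' l) ∧
        cH + ∑ l ∈ range p, b' (l + 1) = 0 ∧ c 0 + (r : ℤ) * b' 1 + b' 0 = 0 := by
  have hr : (0 : ℤ) ≤ r := by positivity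
  intro n
  induction n with
  | zero =>
    intro A b hE hQ hA hb
    refine ⟨b, hb, ?_, ?_⟩
    · unfold EE at hE
      rw [Finset.sum_range_succ' (fun l => b l * X r p 0 l) p] at hE
      simp [X, zig_zero] at hE
      linarith
    · unfold EE at hE
      unfold QQ at hQ
      rw [Finset.sum_range_succ' (fun l => b l * X r p 0 l) p] at hE
      rw [Finset.sum_range_succ' (fun l => b l) p] at hQ
      simp [X, zig_zero] at hE hQ
      rw [zero_add, zig_one p hp] at hA
      linarith
  | succ n ih =>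
    intro A b hE hQ hA hb
    obtain ⟨f, hf, hE', hQ'⟩ := step_down r p hp c cH n A b hE hQ
    set z := zig p (n + 1) with hz
    have hzp : z ≤ p := zig_le p (n + 1)
    have hz2p : zig p (n + 1 + 1) ≤ p := zig_le p (n + 1 + 1)
    refine ih ((r : ℤ) * f) (Function.update b z f) hE' hQ' (by rw [Function.update_self]) ?_
    intro l hl
    have hgz := abs_le.mp (hg (n + 1))
    have hst := zig_step p (n + 1) hp
    rw [← hz] at hst
    rw [hA, hc (n + 1)] at hf
    by_cases h1 : l + 1 = z
    · rw [h1, Function.update_self, Function.update_of_ne (by omega)]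
      have hh : h (n + 1) = 0 := hhz (n + 1) (by rw [← hz]; omega)
      rw [hh, add_zero] at hf
      have h4 := hb l hl
      rw [h1] at h4
      rcases hst with h2 | h2
      · rw [h2] at hf
        have h3 := hb z (by omega)
        exact avg_le hr hf hgz.2 (by omega) h4
      · have h3 : zig p (n + 1 + 1) = l := by omega
        rw [h3] at hf
        exact avg_le hr hf hgz.2 le_rfl h4
    · by_cases h5 : l = z
      · rw [h5, Function.update_self, Function.update_of_ne (by omega)]
        have hh := hh0 (n + 1)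
        have h7 := hb z (by omega)
        rcases hst with h2 | h2
        · rw [h2] at hf
          exact avg_ge hr hf hgz.1 hh le_rfl h7
        · have h6 := hb (zig p (n + 1 + 1)) (by omega)
          rw [← h2] at h6
          exact avg_ge hr hf hgz.1 hh (by omega) h7
      · rw [Function.update_of_ne h5, Function.update_of_ne h1]
        exact hb l hl

/-- The trivial descent. -/
lemma descent_zero (r p : ℕ) (hp : 1 ≤ p) (c : ℕ → ℤ) (cH : ℤ) (hc : ∀ m, |c m| ≤ (r : ℤ)) :
    ∀ n : ℕ, EE r p c cH n 0 (fun _ => 0) → QQ p c cH n 0 (fun _ => 0) →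
      (∀ m, m ≤ n → c m = 0) ∧ cH = 0 := by
  have hr : (0 : ℤ) ≤ r := by positivity
  intro n
  induction n with
  | zero =>
    intro hE hQ
    unfold EE at hE
    unfold QQ at hQ
    simp [X, zig_zero] at hE hQ
    refine ⟨?_, hE⟩
    intro m hm
    have : m = 0 := by omega
    rw [this]
    linarith
  | succ n ih =>
    intro hE hQ
    obtain ⟨f, hf, hE', hQ'⟩ := step_down r p hp c cH n 0 (fun _ => 0) hE hQ
    have h1 := abs_le.mp (hc (n + 1))
    simp only [add_zero] at hf
    have hf0 : f = 0 := by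
      have h3 : (0 : ℤ) ≤ f :=
        avg_ge (h := 0) (s := 0) (t := 0) (a := 0) hr (by rw [hf]; ring) h1.1 le_rfl le_rfl le_rfl
      have h4 : f ≤ 0 :=
        avg_le (s := 0) (t := 0) (a := 0) hr (by rw [hf]; ring) h1.2 le_rfl le_rfl
      omega
    have hc0 : c (n + 1) = 0 := by rw [← hf, hf0, mul_zero]
    have hup : Function.update (fun _ => (0 : ℤ)) (zig p (n + 1)) f = fun _ => 0 := by
      funext l
      by_cases hl : l = zig p (n + 1)
      · rw [hl, Function.update_self, hf0]
      · rw [Function.update_of_ne hl]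
    rw [hup, hf0, mul_zero] at hE' hQ'
    obtain ⟨h2, h3⟩ := ih hE' hQ'
    refine ⟨?_, h3⟩
    intro m hm
    rcases Nat.lt_or_ge m (n + 1) with h | h
    · exact h2 m (by omega)
    · have : m = n + 1 := by omega
      rw [this]
      exact hc0

end Pool.Agent.H514R2.DS
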