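import Mathlib
import Pool.Agent.H514R2.DS.Fam

/-!
# Polynomial rate of convergence of the chain (energy argument)
-/

set_option autoImplicit false

namespace Pool.Agent.H514R2.DS

open Finset

/-- Values of the states. -/
noncomputable def R (r p n l : ℕ) : ℝ := (X r p n l : ℝ) / ((r : ℝ) + 1) ^ n

lemma R_self (r p n : ℕ) :
    R r p (n + 1) (zig p (n + 1)) =
      ((r : ℝ) * R r p n (zig p n) + R r p n (zig p (n + 1))) / ((r : ℝ) + 1) := by
  unfold R
  rw [X_self, pow_succ]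
  push_cast
  have : (r : ℝ) + 1 ≠ 0 := by positivity
  field_simp

lemma R_other (r p n l : ℕ) (hl : l ≠ zig p (n + 1)) : R r p (n + 1) l = R r p n l := by
  unfold R
  rw [X_other r p n l hl, pow_succ]
  push_cast
  have : (r : ℝ) + 1 ≠ 0 := by positivity
  field_simp

lemma R_zero (r p l : ℕ) : R r p 0 l = if l = 0 then 0 else 1 := by
  unfold R
  simp only [X]
  split_ifs <;> simp

lemma R_nonneg (r p n l : ℕ) : 0 ≤ R r p n l := by
  unfold R
  have : (0 : ℝ) ≤ X r p n l := by exact_mod_cast X_nonneg r p n l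
  positivity

/-- Averages stay above a common lower bound. -/
lemma avg_ge' {r a x y : ℝ} (hr : 0 ≤ r) (hx : a ≤ x) (hy : a ≤ y) :
    a ≤ (r * x + y) / (r + 1) := by
  rw [le_div_iff₀ (by linarith)]
  nlinarith

lemma avg_le' {r a x y : ℝ} (hr : 0 ≤ r) (hx : x ≤ a) (hy : y ≤ a) :
    (r * x + y) / (r + 1) ≤ a := by
  rw [div_le_iff₀ (by linarith)]
  nlinarith

/-- The states are nondecreasing in the label. -/
lemma R_mono (r p : ℕ) (hp : 1 ≤ p) (n : ℕ) : ∀ l, l < p → R r p n l ≤ R r p n (l + 1) := by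
  have hr : (0 : ℝ) ≤ r := by positivity
  induction n with
  | zero =>
    intro l _
    rw [R_zero, R_zero]
    split_ifs <;> norm_num
    omega
  | succ n ih =>
    intro l hl
    have hst := zig_step p n hp
    have hzp := zig_le p (n + 1)
    have hz0 := zig_le p n
    by_cases h1 : l + 1 = zig p (n + 1)
    · rw [h1, R_self, R_other r p n l (by omega)]
      have h2 := ih l hl
      rw [h1] at h2
      refine avg_ge' hr ?_ h2
      rcases hst with h | h
      · have h3 : zig p n = l := by omega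
        rw [h3]
      · have h3 := ih (zig p (n + 1)) (by omega)
        rw [h]
        linarith
    · by_cases h2 : l = zig p (n + 1)
      · rw [h2] at hl ⊢
        rw [R_self, R_other r p n _ (by omega)]
        have h3 := ih (zig p (n + 1)) hl
        refine avg_le' hr ?_ h3
        rcases hst with h | h
        · have h4 := ih (zig p n) (by omega)
          rw [← h] at h4
          linarith
        · rw [h]
      · rw [R_other r p n l h2, R_other r p n (l + 1) h1]
        exact ih l hl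

lemma R_mono' (r p : ℕ) (hp : 1 ≤ p) (n l : ℕ) (hl : l ≤ p) : R r p n 0 ≤ R r p n l := by
  induction l with
  | zero => exact le_rfl
  | succ l ih => exact le_trans (ih (by omega)) (R_mono r p hp n l (by omega))

lemma R_mono'' (r p : ℕ) (hp : 1 ≤ p) (n l : ℕ) (hl : l ≤ p) : R r p n l ≤ R r p n p := by
  obtain ⟨s, hs⟩ := Nat.exists_eq_add_of_le hl
  have key : ∀ s l, l + s ≤ p → R r p n l ≤ R r p n (l + s) := by
    intro s
    induction s with
    | zero => intro l _; exact le_rfl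
    | succ s ih =>
      intro l hl
      exact le_trans (ih l (by omega)) (R_mono r p hp n (l + s) (by omega))
  have := key s l (by omega)
  rwa [← hs] at this

/-- The conserved quantity. -/
lemma R_sum (r p : ℕ) (n : ℕ) :
    (r : ℝ) * R r p n (zig p n) + ∑ l ∈ range (p + 1), R r p n l = p := by
  induction n with
  | zero =>
    rw [zig_zero, R_zero, Finset.sum_range_succ']
    simp [R_zero]
  | succ n ih =>
    have hz : zig p (n + 1) ∈ range (p + 1) := by
      have := zig_le p (n + 1)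
      rw [Finset.mem_range]; omega
    rw [← Finset.add_sum_erase _ _ hz] at ih ⊢
    have h1 : ∑ l ∈ (range (p + 1)).erase (zig p (n + 1)), R r p (n + 1) l =
        ∑ l ∈ (range (p + 1)).erase (zig p (n + 1)), R r p n l := by
      refine Finset.sum_congr rfl ?_
      intro l hl
      exact R_other r p n l (Finset.ne_of_mem_erase hl)
    rw [h1, R_self]
    have h2 : (r : ℝ) + 1 ≠ 0 := by positivity
    have h3 : (r : ℝ) * (((r : ℝ) * R r p n (zig p n) + R r p n (zig p (n + 1))) / ((r : ℝ) + 1)) +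
        (((r : ℝ) * R r p n (zig p n) + R r p n (zig p (n + 1))) / ((r : ℝ) + 1)) =
        (r : ℝ) * R r p n (zig p n) + R r p n (zig p (n + 1)) := by
      field_simp
    linarith

/-- The energy. -/
noncomputable def En (r p n : ℕ) : ℝ :=
  (r : ℝ) * R r p n (zig p n) ^ 2 + ∑ l ∈ range (p + 1), R r p n l ^ 2

lemma En_step (r p n : ℕ) :
    En r p (n + 1) = En r p n -
      (r : ℝ) / ((r : ℝ) + 1) * (R r p n (zig p n) - R r p n (zig p (n + 1))) ^ 2 := by
  unfold En
  have hz : zig p (n + 1) ∈ range (p + 1) := by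
    have := zig_le p (n + 1)
    rw [Finset.mem_range]; omega
  rw [← Finset.add_sum_erase _ (fun l => R r p (n + 1) l ^ 2) hz,
    ← Finset.add_sum_erase _ (fun l => R r p n l ^ 2) hz]
  have h1 : ∑ l ∈ (range (p + 1)).erase (zig p (n + 1)), R r p (n + 1) l ^ 2 =
      ∑ l ∈ (range (p + 1)).erase (zig p (n + 1)), R r p n l ^ 2 := by
    refine Finset.sum_congr rfl ?_
    intro l hl
    rw [R_other r p n l (Finset.ne_of_mem_erase hl)]
  rw [h1, R_self]
  have h2 : (r : ℝ) + 1 ≠ 0 := by positivity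
  field_simp
  ring

lemma En_anti (r p n : ℕ) : En r p (n + 1) ≤ En r p n := by
  rw [En_step]
  have : 0 ≤ (r : ℝ) / ((r : ℝ) + 1) * (R r p n (zig p n) - R r p n (zig p (n + 1))) ^ 2 := by
    positivity
  linarith

lemma En_anti' (r p m n : ℕ) (h : m ≤ n) : En r p n ≤ En r p m := by
  induction n, h using Nat.le_induction with
  | base => exact le_rfl
  | succ n _ ih => exact le_trans (En_anti r p n) ih

lemma zig_up (p k j : ℕ) (hj : j ≤ p) (hp : 1 ≤ p) : zig p (2 * p * k + j) = j := by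
  unfold zig
  rw [Nat.mul_add_mod, Nat.mod_eq_of_lt (by omega)]
  omega

/-- During the upward sweep the labels above the token are unchanged. -/
lemma R_above (r p : ℕ) (hp : 1 ≤ p) (k j l : ℕ) (hjl : j < l) (hl : l ≤ p) :
    R r p (2 * p * k + j) l = R r p (2 * p * k) l := by
  induction j with
  | zero => rfl
  | succ j ih =>
    have e : 2 * p * k + (j + 1) = 2 * p * k + j + 1 := by omega
    rw [e, R_other, ih (by omega)]
    rw [← e, zig_up p k (j + 1) (by omega) hp]
    omega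

/-- The token during the upward sweep. -/
noncomputable def tok (r p k j : ℕ) : ℝ := R r p (2 * p * k + j) j

lemma tok_succ (r p : ℕ) (hp : 1 ≤ p) (k j : ℕ) (hj : j < p) :
    tok r p k (j + 1) =
      ((r : ℝ) * tok r p k j + R r p (2 * p * k) (j + 1)) / ((r : ℝ) + 1) := by
  unfold tok
  have e : 2 * p * k + (j + 1) = 2 * p * k + j + 1 := by omega
  have hz1 : zig p (2 * p * k + j + 1) = j + 1 := by
    rw [← e]; exact zig_up p k (j + 1) (by omega) hp
  have hz0 : zig p (2 * p * k + j) = j := zig_up p k j (by omega) hp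
  have h1 := R_self r p (2 * p * k + j)
  rw [hz1, hz0] at h1
  rw [e, h1, R_above r p hp k j (j + 1) (by omega) (by omega)]

lemma En_sweep (r p : ℕ) (hp : 1 ≤ p) (k j : ℕ) (hj : j ≤ p) :
    En r p (2 * p * k + j) + (r : ℝ) * ((r : ℝ) + 1) *
      ∑ i ∈ range j, (tok r p k (i + 1) - tok r p k i) ^ 2 = En r p (2 * p * k) := by
  induction j with
  | zero => simp
  | succ j ih =>
    have e : 2 * p * k + (j + 1) = 2 * p * k + j + 1 := by omega
    have hz1 : zig p (2 * p * k + j + 1) = j + 1 := by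
      rw [← e]; exact zig_up p k (j + 1) (by omega) hp
    have hz0 : zig p (2 * p * k + j) = j := zig_up p k j (by omega) hp
    have h1 := ih (by omega)
    have h2 := En_step r p (2 * p * k + j)
    rw [hz1, hz0, R_above r p hp k j (j + 1) (by omega) (by omega)] at h2
    have h3 := tok_succ r p hp k j (by omega)
    have h4 : (r : ℝ) + 1 ≠ 0 := by positivity
    rw [e, h2, Finset.sum_range_succ, ← h1]
    have h5 : R r p (2 * p * k) (j + 1) =
        ((r : ℝ) + 1) * tok r p k (j + 1) - (r : ℝ) * tok r p k j := by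
      rw [h3]; field_simp; ring
    have h6 : R r p (2 * p * k + j) j = tok r p k j := rfl
    rw [h5, h6]
    field_simp
    ring

lemma R_zero_mono (r p : ℕ) (hp : 1 ≤ p) (n : ℕ) : R r p n 0 ≤ R r p (n + 1) 0 := by
  have hr : (0 : ℝ) ≤ r := by positivity
  by_cases h : zig p (n + 1) = 0
  · have h1 := R_self r p n
    rw [h] at h1
    rw [h1]
    exact avg_ge' hr (R_mono' r p hp n (zig p n) (zig_le p n)) le_rfl
  · rw [R_other r p n 0 (Ne.symm h)]

lemma R_zero_mono' (r p : ℕ) (hp : 1 ≤ p) (m n : ℕ) (h : m ≤ n) :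
    R r p m 0 ≤ R r p n 0 := by
  induction n, h using Nat.le_induction with
  | base => exact le_rfl
  | succ n _ ih => exact le_trans ih (R_zero_mono r p hp n)

lemma tok_ge (r p : ℕ) (hp : 1 ≤ p) (k j : ℕ) (hj : j ≤ p) : tok r p k 0 ≤ tok r p k j :=
  le_trans (R_zero_mono' r p hp _ _ (by omega)) (R_mono' r p hp _ j hj)

/-- Energy drop of one period in terms of the spread. -/
lemma drop (r p : ℕ) (hp : 1 ≤ p) (k : ℕ) :
    En r p (2 * p * (k + 1)) ≤ En r p (2 * p * k) -
      (r : ℝ) / (((r : ℝ) + 1) * p) * (R r p (2 * p * k) p - R r p (2 * p * k) 0) ^ 2 := by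
  have hr : (0 : ℝ) ≤ r := by positivity
  have hp' : (0 : ℝ) < p := by exact_mod_cast hp
  have h1 := En_sweep r p hp k p le_rfl
  have h2 : (tok r p k p - tok r p k 0) ^ 2 ≤
      p * ∑ i ∈ range p, (tok r p k (i + 1) - tok r p k i) ^ 2 := by
    have h3 := sq_sum_le_card_mul_sum_sq (s := range p)
      (f := fun i => tok r p k (i + 1) - tok r p k i)
    rw [Finset.sum_range_sub, Finset.card_range] at h3
    exact h3
  have h3 : R r p (2 * p * k) p - R r p (2 * p * k) 0 ≤
      ((r : ℝ) + 1) * (tok r p k p - tok r p k 0) := by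
    obtain ⟨s, rfl⟩ : ∃ s, p = s + 1 := ⟨p - 1, by omega⟩
    have h4 := tok_succ r (s + 1) hp k s (by omega)
    have h5 := tok_ge r (s + 1) hp k s (by omega)
    have h6 : tok r (s + 1) k 0 = R r (s + 1) (2 * (s + 1) * k) 0 := rfl
    have h7 : ((r : ℝ) + 1) * tok r (s + 1) k (s + 1) =
        (r : ℝ) * tok r (s + 1) k s + R r (s + 1) (2 * (s + 1) * k) (s + 1) := by
      rw [h4]
      have : (r : ℝ) + 1 ≠ 0 := by positivity
      field_simp
    have h8 := mul_le_mul_of_nonneg_left h5 hr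
    rw [mul_sub, h7, ← h6]
    linarith
  have h0 : 0 ≤ R r p (2 * p * k) p - R r p (2 * p * k) 0 := by
    have := R_mono' r p hp (2 * p * k) p le_rfl
    linarith
  have h4 : (R r p (2 * p * k) p - R r p (2 * p * k) 0) ^ 2 ≤
      (((r : ℝ) + 1) * (tok r p k p - tok r p k 0)) ^ 2 := pow_le_pow_left₀ h0 h3 2
  have h5 : En r p (2 * p * (k + 1)) ≤ En r p (2 * p * k + p) := En_anti' r p _ _ (by
    have : 2 * p * (k + 1) = 2 * p * k + p + p := by ring
    omega)
  have h6 : (r : ℝ) / (((r : ℝ) + 1) * p) * (R r p (2 * p * k) p - R r p (2 * p * k) 0) ^ 2 ≤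
      (r : ℝ) * ((r : ℝ) + 1) * ∑ i ∈ range p, (tok r p k (i + 1) - tok r p k i) ^ 2 := by
    have h7 : (r : ℝ) / (((r : ℝ) + 1) * p) * (R r p (2 * p * k) p - R r p (2 * p * k) 0) ^ 2 ≤
        (r : ℝ) / (((r : ℝ) + 1) * p) * (((r : ℝ) + 1) ^ 2 *
          (p * ∑ i ∈ range p, (tok r p k (i + 1) - tok r p k i) ^ 2)) := by
      refine mul_le_mul_of_nonneg_left ?_ (by positivity)
      calc _ ≤ (((r : ℝ) + 1) * (tok r p k p - tok r p k 0)) ^ 2 := h4
        _ = ((r : ℝ) + 1) ^ 2 * (tok r p k p - tok r p k 0) ^ 2 := by ring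
        _ ≤ _ := mul_le_mul_of_nonneg_left h2 (by positivity)
    refine le_trans h7 (le_of_eq ?_)
    field_simp
  linarith

/-- The mean value. -/
noncomputable def mu (r p : ℕ) : ℝ := (p : ℝ) / ((p : ℝ) + r + 1)

/-- The excess energy. -/
noncomputable def Ex (r p k : ℕ) : ℝ := En r p (2 * p * k) - (p : ℝ) ^ 2 / ((p : ℝ) + r + 1)

lemma Ex_eq (r p k : ℕ) :
    Ex r p k = (r : ℝ) * (R r p (2 * p * k) 0 - mu r p) ^ 2 +
      ∑ l ∈ range (p + 1), (R r p (2 * p * k) l - mu r p) ^ 2 := by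
  have hs := R_sum r p (2 * p * k)
  rw [zig_mul] at hs
  have h1 : ∑ l ∈ range (p + 1), (R r p (2 * p * k) l - mu r p) ^ 2 =
      ∑ l ∈ range (p + 1), R r p (2 * p * k) l ^ 2 -
        2 * mu r p * ∑ l ∈ range (p + 1), R r p (2 * p * k) l + (p + 1) * mu r p ^ 2 := by
    rw [Finset.mul_sum, ← Finset.sum_sub_distrib]
    have : ((p : ℝ) + 1) * mu r p ^ 2 = ∑ l ∈ range (p + 1), mu r p ^ 2 := by
      rw [Finset.sum_const, Finset.card_range, nsmul_eq_mul]
      push_cast
      ring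
    rw [this, ← Finset.sum_add_distrib]
    refine Finset.sum_congr rfl ?_
    intro l _
    ring
  have h2 : ∑ l ∈ range (p + 1), R r p (2 * p * k) l = p - (r : ℝ) * R r p (2 * p * k) 0 := by
    linarith
  unfold Ex En
  rw [zig_mul, h1, h2]
  have h3 : (p : ℝ) + r + 1 ≠ 0 := by positivity
  unfold mu
  field_simp
  ring

lemma mu_between (r p : ℕ) (hp : 1 ≤ p) (k : ℕ) :
    R r p (2 * p * k) 0 ≤ mu r p ∧ mu r p ≤ R r p (2 * p * k) p := by
  have hr : (0 : ℝ) ≤ r := by positivity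
  have hs := R_sum r p (2 * p * k)
  rw [zig_mul] at hs
  have h5 : ∑ l ∈ range (p + 1), R r p (2 * p * k) l ≤
      ∑ l ∈ range (p + 1), R r p (2 * p * k) p := by
    refine Finset.sum_le_sum ?_
    intro l hl
    rw [Finset.mem_range] at hl
    exact R_mono'' r p hp _ l (by omega)
  have h6 : ∑ l ∈ range (p + 1), R r p (2 * p * k) 0 ≤
      ∑ l ∈ range (p + 1), R r p (2 * p * k) l := by
    refine Finset.sum_le_sum ?_
    intro l hl
    rw [Finset.mem_range] at hl
    exact R_mono' r p hp _ l (by omega)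
  rw [Finset.sum_const, Finset.card_range, nsmul_eq_mul] at h5 h6
  push_cast at h5 h6
  have h7 := mul_le_mul_of_nonneg_left (R_mono' r p hp (2 * p * k) p le_rfl) hr
  unfold mu
  constructor
  · rw [le_div_iff₀ (by positivity)]
    linarith
  · rw [div_le_iff₀ (by positivity)]
    linarith

lemma Ex_le (r p : ℕ) (hp : 1 ≤ p) (k : ℕ) :
    Ex r p k ≤ ((p : ℝ) + r + 1) * (R r p (2 * p * k) p - R r p (2 * p * k) 0) ^ 2 := by
  obtain ⟨h1, h2⟩ := mu_between r p hp k
  rw [Ex_eq]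
  have key : ∀ l, l ≤ p → (R r p (2 * p * k) l - mu r p) ^ 2 ≤
      (R r p (2 * p * k) p - R r p (2 * p * k) 0) ^ 2 := by
    intro l hl
    have h3 := R_mono' r p hp (2 * p * k) l hl
    have h4 := R_mono'' r p hp (2 * p * k) l hl
    apply sq_le_sq'
    · linarith
    · linarith
  have h3 : ∑ l ∈ range (p + 1), (R r p (2 * p * k) l - mu r p) ^ 2 ≤
      ((p : ℝ) + 1) * (R r p (2 * p * k) p - R r p (2 * p * k) 0) ^ 2 := by
    calc _ ≤ ∑ l ∈ range (p + 1), (R r p (2 * p * k) p - R r p (2 * p * k) 0) ^ 2 := by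
          refine Finset.sum_le_sum ?_
          intro l hl
          rw [Finset.mem_range] at hl
          exact key l (by omega)
      _ = _ := by
          rw [Finset.sum_const, Finset.card_range, nsmul_eq_mul]
          push_cast
          ring
  have h4 := mul_le_mul_of_nonneg_left (key 0 (by omega)) (show (0 : ℝ) ≤ r by positivity)
  linarith

/-- The contraction factor. -/
noncomputable def kap (r p : ℕ) : ℝ := (r : ℝ) / (((r : ℝ) + 1) * p * ((p : ℝ) + r + 1))

lemma kap_le_one (r p : ℕ) (hp : 1 ≤ p) : kap r p ≤ 1 := by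
  have hp' : (1 : ℝ) ≤ p := by exact_mod_cast hp
  have hr : (0 : ℝ) ≤ r := by positivity
  unfold kap
  rw [div_le_one (by positivity)]
  have h1 : (r : ℝ) ≤ ((r : ℝ) + 1) * 1 := by linarith
  have h2 : ((r : ℝ) + 1) * 1 ≤ ((r : ℝ) + 1) * p :=
    mul_le_mul_of_nonneg_left hp' (by positivity)
  have h3 : ((r : ℝ) + 1) * p * 1 ≤ ((r : ℝ) + 1) * p * ((p : ℝ) + r + 1) :=
    mul_le_mul_of_nonneg_left (by linarith) (by positivity)
  linarith

lemma Ex_step (r p : ℕ) (hp : 1 ≤ p) (k : ℕ) : Ex r p (k + 1) ≤ (1 - kap r p) * Ex r p k := by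
  have h1 := drop r p hp k
  have h2 := Ex_le r p hp k
  have hp' : (0 : ℝ) < p := by exact_mod_cast hp
  have h3 : kap r p * Ex r p k ≤
      (r : ℝ) / (((r : ℝ) + 1) * p) * (R r p (2 * p * k) p - R r p (2 * p * k) 0) ^ 2 := by
    have h4 := mul_le_mul_of_nonneg_left h2 (show (0 : ℝ) ≤ kap r p by unfold kap; positivity)
    refine le_trans h4 (le_of_eq ?_)
    unfold kap
    field_simp
  have h5 : Ex r p (k + 1) = En r p (2 * p * (k + 1)) - (p : ℝ) ^ 2 / ((p : ℝ) + r + 1) := rfl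
  have h6 : Ex r p k = En r p (2 * p * k) - (p : ℝ) ^ 2 / ((p : ℝ) + r + 1) := rfl
  rw [sub_mul, one_mul, h5]
  rw [h6] at h3 ⊢
  linarith

lemma Ex_zero (r p : ℕ) : Ex r p 0 ≤ (r : ℝ) + 1 := by
  unfold Ex En
  rw [mul_zero, zig_zero, R_zero]
  have h1 : ∑ l ∈ range (p + 1), R r p 0 l ^ 2 = p := by
    rw [Finset.sum_range_succ']
    simp [R_zero]
  rw [h1, if_pos rfl]
  have h2 : (0 : ℝ) < (p : ℝ) + r + 1 := by positivity
  have h3 : (r : ℝ) * 0 ^ 2 + (p : ℝ) - (p : ℝ) ^ 2 / ((p : ℝ) + r + 1) =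
      (p : ℝ) * ((r : ℝ) + 1) / ((p : ℝ) + r + 1) := by
    field_simp
    ring
  rw [h3, div_le_iff₀ h2]
  have hr : (0 : ℝ) ≤ r := by positivity
  nlinarith

lemma Ex_pow (r p : ℕ) (hp : 1 ≤ p) (k : ℕ) :
    Ex r p k ≤ (1 - kap r p) ^ k * ((r : ℝ) + 1) := by
  induction k with
  | zero => simpa using Ex_zero r p
  | succ k ih =>
    have h1 := Ex_step r p hp k
    have h2 : 0 ≤ 1 - kap r p := by linarith [kap_le_one r p hp]
    calc Ex r p (k + 1) ≤ (1 - kap r p) * Ex r p k := h1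
      _ ≤ (1 - kap r p) * ((1 - kap r p) ^ k * ((r : ℝ) + 1)) := mul_le_mul_of_nonneg_left ih h2
      _ = _ := by rw [pow_succ]; ring

/-- Lower bound for the value at label `0`. -/
lemma lower (r p : ℕ) (hp : 1 ≤ p) (k : ℕ) :
    mu r p - Real.exp (-(kap r p * k / 2)) ≤ R r p (2 * p * k) 0 := by
  have hk0 : 0 ≤ kap r p := by unfold kap; positivity
  have h1 := Ex_pow r p hp k
  have h2 : (1 - kap r p) ^ k ≤ Real.exp (-(kap r p * k)) := by
    have h3 : 1 - kap r p ≤ Real.exp (-kap r p) := by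
      have := Real.add_one_le_exp (-kap r p)
      linarith
    have h4 : 0 ≤ 1 - kap r p := by linarith [kap_le_one r p hp]
    calc (1 - kap r p) ^ k ≤ Real.exp (-kap r p) ^ k := pow_le_pow_left₀ h4 h3 k
      _ = Real.exp (-(kap r p * k)) := by
        rw [← Real.exp_nat_mul]; congr 1; ring
  have h3 : ((r : ℝ) + 1) * (R r p (2 * p * k) 0 - mu r p) ^ 2 ≤ Ex r p k := by
    rw [Ex_eq, Finset.sum_range_succ']
    have : 0 ≤ ∑ l ∈ range p, (R r p (2 * p * k) (l + 1) - mu r p) ^ 2 :=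
      Finset.sum_nonneg (fun l _ => sq_nonneg _)
    linarith
  have h4 : (R r p (2 * p * k) 0 - mu r p) ^ 2 ≤ Real.exp (-(kap r p * k)) := by
    have h5 : ((r : ℝ) + 1) * (R r p (2 * p * k) 0 - mu r p) ^ 2 ≤
        ((r : ℝ) + 1) * Real.exp (-(kap r p * k)) := by
      have := mul_le_mul_of_nonneg_right h2 (show (0 : ℝ) ≤ (r : ℝ) + 1 by positivity)
      linarith
    exact le_of_mul_le_mul_left h5 (by positivity)
  have h5 : Real.exp (-(kap r p * k)) = Real.exp (-(kap r p * k / 2)) ^ 2 := by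
    rw [← Real.exp_nat_mul]; congr 1; push_cast; ring
  rw [h5] at h4
  have h6 := abs_le_of_sq_le_sq h4 (Real.exp_pos _).le
  linarith [(abs_le.mp h6).1]

/-- The number of periods. -/
def Kper (r p : ℕ) : ℕ := 2 * (r + 1) * p ^ 2 * (p + r + 1)

lemma lower2 (r p : ℕ) (hr : 1 ≤ r) (hp : 1 ≤ p) (k : ℕ) (hk : Kper r p ≤ k) :
    1 - ((r : ℝ) + 2) / p ≤ R r p (2 * p * k) 0 := by
  have hp' : (1 : ℝ) ≤ p := by exact_mod_cast hp
  have hr' : (1 : ℝ) ≤ r := by exact_mod_cast hr
  have h1 := lower r p hp k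
  have hk' : (2 : ℝ) * (r + 1) * p ^ 2 * (p + r + 1) ≤ k := by
    have : ((Kper r p : ℕ) : ℝ) ≤ (k : ℝ) := by exact_mod_cast hk
    unfold Kper at this
    push_cast at this
    exact this
  have h2 : (p : ℝ) ≤ kap r p * k / 2 := by
    have h3 : kap r p * (2 * (r + 1) * p ^ 2 * (p + r + 1)) ≤ kap r p * k :=
      mul_le_mul_of_nonneg_left hk' (by unfold kap; positivity)
    have h4 : kap r p * (2 * (r + 1) * p ^ 2 * (p + r + 1)) = 2 * (r : ℝ) * p := by
      unfold kap
      have : (0 : ℝ) < p := by linarith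
      field_simp
    rw [h4] at h3
    nlinarith
  have h3 : Real.exp (-(kap r p * k / 2)) ≤ 1 / p := by
    calc Real.exp (-(kap r p * k / 2)) ≤ Real.exp (-(p : ℝ)) := Real.exp_le_exp.mpr (by linarith)
      _ = 1 / Real.exp p := by rw [Real.exp_neg, one_div]
      _ ≤ 1 / p := by
        apply one_div_le_one_div_of_le (by linarith)
        have := Real.add_one_le_exp (p : ℝ)
        linarith
  have h4 : 1 - ((r : ℝ) + 1) / p ≤ mu r p := by
    unfold mu
    have h5 : (p : ℝ) / (p + r + 1) = 1 - ((r : ℝ) + 1) / (p + r + 1) := by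
      field_simp
      ring
    rw [h5]
    have : ((r : ℝ) + 1) / (p + r + 1) ≤ ((r : ℝ) + 1) / p := by
      apply div_le_div_of_nonneg_left (by positivity) (by linarith) (by linarith)
    linarith
  have h5 : ((r : ℝ) + 2) / p = ((r : ℝ) + 1) / p + 1 / p := by ring
  rw [h5]
  linarith

/-- **The family with its size.** -/
theorem rate (r p : ℕ) (hr : 1 ≤ r) (hp : 1 ≤ p) :
    ∃ A : Finset ℕ, A.card = 2 * p * (Kper r p + p) + 1 + p ∧
      (∀ x ∈ A, 0 < x ∧ (x : ℝ) ≤
        ((r : ℝ) + 3) / (((r : ℝ) + 1) * p) * ((r : ℝ) + 1) ^ A.card) ∧ RF r A := by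
  have hp' : (1 : ℝ) ≤ p := by exact_mod_cast hp
  have hr' : (1 : ℝ) ≤ r := by exact_mod_cast hr
  set M := Kper r p + p with hM
  obtain ⟨A, hA1, hA2, hA3⟩ := family r p M p hr hp hp (by omega)
  have hδ : ∀ j, j < p → (1 - ((r : ℝ) + 2) / p) * ((r : ℝ) + 1) ^ (2 * p * M) ≤
      (wv r p (2 * p * M) (2 * p * (M - j)) : ℝ) := by
    intro j hj
    have h4 := lower2 r p hr hp (M - j) (by omega)
    have h5 : (wv r p (2 * p * M) (2 * p * (M - j)) : ℝ) =
        R r p (2 * p * (M - j)) 0 * ((r : ℝ) + 1) ^ (2 * p * M) := by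
      unfold wv R
      rw [zig_mul]
      have hle : 2 * p * (M - j) ≤ 2 * p * M := Nat.mul_le_mul_left _ (Nat.sub_le _ _)
      have h6 : ((r : ℝ) + 1) ^ (2 * p * M) = ((r : ℝ) + 1) ^ (2 * p * M - 2 * p * (M - j)) *
          ((r : ℝ) + 1) ^ (2 * p * (M - j)) := by
        rw [← pow_add]; congr 1; omega
      rw [h6]
      push_cast
      have : (r : ℝ) + 1 ≠ 0 := by positivity
      field_simp
    rw [h5]
    exact mul_le_mul_of_nonneg_right h4 (by positivity)
  have hb := xv_bound r p M p (((r : ℝ) + 2) / p) hδ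
  refine ⟨A, hA1, ?_, hA3⟩
  intro x hx
  obtain ⟨h1, h2⟩ := hA2 x hx
  refine ⟨h1, ?_⟩
  have h3 : (x : ℝ) ≤ xv r p M p := by exact_mod_cast h2
  have hpow : (p : ℝ) ≤ ((r : ℝ) + 1) ^ p := by
    have h4 : (p : ℝ) ≤ (2 : ℝ) ^ p := by exact_mod_cast (Nat.lt_two_pow_self (n := p)).le
    exact le_trans h4 (pow_le_pow_left₀ (by norm_num) (by linarith) p)
  have h4 : (1 + ((r : ℝ) + 2) / p * (((r : ℝ) + 1) ^ p - 1)) ≤
      ((r : ℝ) + 3) / (((r : ℝ) + 1) * p) * ((r : ℝ) + 1) ^ (1 + p) := by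
    have h5 : (1 : ℝ) ≤ 1 / p * ((r : ℝ) + 1) ^ p := by
      rw [div_mul_eq_mul_div, one_mul, le_div_iff₀ (by linarith)]
      linarith
    have h6 : ((r : ℝ) + 3) / (((r : ℝ) + 1) * p) * ((r : ℝ) + 1) ^ (1 + p) =
        1 / p * ((r : ℝ) + 1) ^ p + ((r : ℝ) + 2) / p * ((r : ℝ) + 1) ^ p := by
      rw [pow_add, pow_one]
      have : (r : ℝ) + 1 ≠ 0 := by positivity
      field_simp
      ring
    have h7 : 0 ≤ ((r : ℝ) + 2) / p := by positivity
    rw [h6]
    linarith
  calc (x : ℝ) ≤ xv r p M p := h3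
    _ ≤ _ := hb
    _ ≤ ((r : ℝ) + 3) / (((r : ℝ) + 1) * p) * ((r : ℝ) + 1) ^ (1 + p) *
        ((r : ℝ) + 1) ^ (2 * p * M) := mul_le_mul_of_nonneg_right h4 (by positivity)
    _ = ((r : ℝ) + 3) / (((r : ℝ) + 1) * p) * ((r : ℝ) + 1) ^ A.card := by
        rw [hA1, mul_assoc, ← pow_add]
        congr 2
        ring

/-- Adding one element. -/
lemma RF_extend {r : ℕ} (hr : 1 ≤ r) {A : Finset ℕ} (h : RF r A) :
    1 ∉ A.image (fun x => (r + 1) * x) ∧ RF r (insert 1 (A.image (fun x => (r + 1) * x))) := by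
  classical
  have hinj : Function.Injective (fun x : ℕ => (r + 1) * x) := fun x y hxy =>
    Nat.eq_of_mul_eq_mul_left (Nat.succ_pos r) hxy
  have h1 : 1 ∉ A.image (fun x => (r + 1) * x) := by
    intro hmem
    obtain ⟨a, _, ha⟩ := Finset.mem_image.mp hmem
    have h2 : r + 1 ∣ 1 := ⟨a, ha.symm⟩
    have := Nat.le_of_dvd one_pos h2
    omega
  refine ⟨h1, ?_⟩
  intro c hc hsum
  rw [Finset.sum_insert h1, Finset.sum_image (fun a _ b _ hab => hinj hab)] at hsum
  push_cast at hsum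
  have h2 : ∑ x ∈ A, c ((r + 1) * x) * (((r : ℤ) + 1) * (x : ℤ)) =
      ((r : ℤ) + 1) * ∑ x ∈ A, c ((r + 1) * x) * (x : ℤ) := by
    rw [Finset.mul_sum]
    refine Finset.sum_congr rfl ?_
    intro x _
    ring
  rw [h2] at hsum
  have hc1 := hc 1 (Finset.mem_insert_self _ _)
  have hdv : ((r : ℤ) + 1) ∣ c 1 := by
    refine ⟨-∑ x ∈ A, c ((r + 1) * x) * (x : ℤ), ?_⟩
    linear_combination hsum
  have h0 : c 1 = 0 := by
    apply Int.eq_zero_of_abs_lt_dvd hdv
    linarith
  have h3 : ∑ x ∈ A, c ((r + 1) * x) * (x : ℤ) = 0 := by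
    rw [h0] at hsum
    have h4 : ((r : ℤ) + 1) * ∑ x ∈ A, c ((r + 1) * x) * (x : ℤ) = 0 := by linarith
    rcases mul_eq_zero.mp h4 with h5 | h5
    · exfalso
      have : (0 : ℤ) ≤ r := by positivity
      omega
    · exact h5
  have h4 := h (fun x => c ((r + 1) * x)) (fun x hx => hc _ (Finset.mem_insert_of_mem
    (Finset.mem_image_of_mem _ hx))) h3
  intro x hx
  rw [Finset.mem_insert, Finset.mem_image] at hx
  rcases hx with rfl | ⟨a, ha, rfl⟩
  · exact h0
  · exact h4 a ha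

/-- Adding several elements. -/
lemma RF_extends {r : ℕ} (hr : 1 ≤ r) {A : Finset ℕ} (h : RF r A) (M : ℝ) (hM : 1 ≤ M)
    (hA : ∀ x ∈ A, 0 < x ∧ (x : ℝ) ≤ M) (s : ℕ) :
    ∃ B : Finset ℕ, B.card = A.card + s ∧ (∀ x ∈ B, 0 < x ∧ (x : ℝ) ≤ ((r : ℝ) + 1) ^ s * M) ∧
      RF r B := by
  classical
  induction s with
  | zero => exact ⟨A, rfl, by simpa using hA, h⟩
  | succ s ih =>
    obtain ⟨B, hB1, hB2, hB3⟩ := ih
    obtain ⟨h1, h2⟩ := RF_extend hr hB3
    have hinj : Function.Injective (fun x : ℕ => (r + 1) * x) := fun x y hxy =>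
      Nat.eq_of_mul_eq_mul_left (Nat.succ_pos r) hxy
    refine ⟨_, ?_, ?_, h2⟩
    · rw [Finset.card_insert_of_notMem h1, Finset.card_image_of_injective _ hinj, hB1]
      ring
    · intro x hx
      rw [Finset.mem_insert, Finset.mem_image] at hx
      rcases hx with rfl | ⟨a, ha, rfl⟩
      · refine ⟨one_pos, ?_⟩
        have h3 : (1 : ℝ) ≤ ((r : ℝ) + 1) ^ (s + 1) := one_le_pow₀ (by
          have : (0 : ℝ) ≤ r := by positivity
          linarith)
        push_cast
        nlinarith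
      · obtain ⟨h3, h4⟩ := hB2 a ha
        refine ⟨by positivity, ?_⟩
        push_cast
        rw [pow_succ]
        have := mul_le_mul_of_nonneg_left h4 (show (0 : ℝ) ≤ (r : ℝ) + 1 by positivity)
        linarith

end Pool.Agent.H514R2.DS
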